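import Pool.Agent.helper27.SY.Spec

/-!
sy:WMB, monotonicity and base cases of the sieve weights.
-/

set_option autoImplicit false

open Finset ArithmeticFunction

namespace Pool.Agent.SY

open Pool.Agent.SX Pool.Agent.helper85.BVP

theorem WMB_pr28 (h : SAD_stmt) : Pr 28 = ∅ := by
  ext p
  rw [h.1]
  constructor
  · rintro ⟨_, h7, h10⟩
    exfalso
    have h1 : 7 ^ 10 ≤ p ^ 10 := Nat.pow_le_pow_left h7 10
    have h2 : (7 : ℕ) ^ 10 = 282475249 := by norm_num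
    have h3 : (2 : ℕ) ^ 28 = 268435456 := by norm_num
    omega
  · intro h
    simp at h

theorem WMB_pr30 (h : SAD_stmt) : Pr 30 = {7} := by
  ext p
  rw [h.1, mem_singleton]
  constructor
  · rintro ⟨hp, h7, h10⟩
    by_contra hne
    have h11 : 11 ≤ p := by
      by_contra hlt
      have : p = 8 ∨ p = 9 ∨ p = 10 := by omega
      rcases this with rfl | rfl | rfl <;> revert hp <;> norm_num
    have h1 : 11 ^ 10 ≤ p ^ 10 := Nat.pow_le_pow_left h11 10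
    have h2 : (11 : ℕ) ^ 10 = 25937424601 := by norm_num
    have h3 : (2 : ℕ) ^ 30 = 1073741824 := by norm_num
    omega
  · rintro rfl
    norm_num

theorem WMB_28 (h : SAD_stmt) (B : ℕ) : ∃ c : Finset ℕ → ℝ, (∀ E, |c E| ≤ 1) ∧
    (∀ E, c E ≠ 0 → E ⊆ Pr 28 ∧ (∏ p ∈ E, p) ^ 10 ≤ 2 ^ B) ∧
    (∀ Γ ⊆ Pr 28, ∑ E ∈ Γ.powerset, c E = if Γ = ∅ then 1 else 0) ∧
    ∑ E ∈ (Pr 28).powerset, c E * g E = V (Pr 28) := by
  refine ⟨fun E => if E = ∅ then 1 else 0, ?_, ?_, ?_, ?_⟩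
  · intro E
    dsimp only
    split_ifs <;> simp
  · intro E hE
    have hE' : E = ∅ := by
      by_contra hne
      exact hE (if_neg hne)
    subst hE'
    refine ⟨empty_subset _, ?_⟩
    rw [prod_empty, one_pow]
    exact Nat.one_le_two_pow
  · intro Γ hΓ
    rw [WMB_pr28 h] at hΓ
    have : Γ = ∅ := subset_empty.1 hΓ
    subst this
    simp
  · rw [WMB_pr28 h]
    simp [g, V]

theorem WMB_30 (h : SAD_stmt) (B : ℕ) (hB : 29 ≤ B) : ∃ c : Finset ℕ → ℝ, (∀ E, |c E| ≤ 1) ∧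
    (∀ E, c E ≠ 0 → E ⊆ Pr 30 ∧ (∏ p ∈ E, p) ^ 10 ≤ 2 ^ B) ∧
    (∀ Γ ⊆ Pr 30, ∑ E ∈ Γ.powerset, c E = if Γ = ∅ then 1 else 0) ∧
    ∑ E ∈ (Pr 30).powerset, c E * g E = V (Pr 30) := by
  have hne : ({7} : Finset ℕ) ≠ ∅ := singleton_ne_empty 7
  have hps : ({7} : Finset ℕ).powerset = {∅, {7}} := by decide
  refine ⟨fun E => if E = ∅ then 1 else if E = {7} then -1 else 0, ?_, ?_, ?_, ?_⟩
  · intro E
    dsimp only
    split_ifs <;> simp
  · intro E hE
    have hE' : E = ∅ ∨ E = {7} := by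
      by_contra hcon
      rw [not_or] at hcon
      apply hE
      dsimp only
      rw [if_neg hcon.1, if_neg hcon.2]
    rcases hE' with rfl | rfl
    · refine ⟨empty_subset _, ?_⟩
      rw [prod_empty, one_pow]
      exact Nat.one_le_two_pow
    · refine ⟨by rw [WMB_pr30 h], ?_⟩
      rw [prod_singleton]
      exact le_trans (by norm_num) (Nat.pow_le_pow_right (by norm_num) hB)
  · intro Γ hΓ
    rw [WMB_pr30 h, subset_singleton_iff] at hΓ
    rcases hΓ with rfl | rfl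
    · simp
    · rw [hps, sum_pair hne.symm]
      simp
  · rw [WMB_pr30 h, hps, sum_pair hne.symm]
    simp [g, V]
    norm_num

theorem WMB (h : SAD_stmt) : WMB_stmt := by
  have hV : ∀ n, 0 < V (Pr n) := fun n => (h.2.2.2.2.1 n n).1
  refine ⟨?_, ?_, ?_, ?_, ?_⟩
  · rintro n B B' v v' hB hv ⟨c, h1, h2, h3, h4⟩
    refine ⟨c, h1, fun E hE => ⟨(h2 E hE).1, (h2 E hE).2.trans
      (Nat.pow_le_pow_right (by norm_num) hB)⟩, h3, le_trans ?_ h4⟩
    exact mul_le_mul_of_nonneg_left (by linarith) (hV n).le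
  · rintro n B B' v v' hB hv ⟨c, h1, h2, h3, h4⟩
    refine ⟨c, h1, fun E hE => ⟨(h2 E hE).1, (h2 E hE).2.trans
      (Nat.pow_le_pow_right (by norm_num) hB)⟩, h3, le_trans h4 ?_⟩
    exact mul_le_mul_of_nonneg_left (by linarith) (hV n).le
  · intro n B
    refine ⟨fun _ => 0, fun E => by simp, fun E hE => absurd rfl hE, fun Γ hΓ => ?_, ?_⟩
    · rw [sum_const_zero]
      split_ifs <;> norm_num
    · simp
  · intro B v hv
    obtain ⟨c, h1, h2, h3, h4⟩ := WMB_28 h B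
    refine ⟨⟨c, h1, h2, fun Γ hΓ => (h3 Γ hΓ).le, ?_⟩, ⟨c, h1, h2, fun Γ hΓ => (h3 Γ hΓ).ge, ?_⟩⟩
    · rw [h4]
      have := hV 28
      nlinarith
    · rw [h4]
      have := hV 28
      nlinarith
  · intro B v hB hv
    obtain ⟨c, h1, h2, h3, h4⟩ := WMB_30 h B hB
    refine ⟨⟨c, h1, h2, fun Γ hΓ => (h3 Γ hΓ).le, ?_⟩, ⟨c, h1, h2, fun Γ hΓ => (h3 Γ hΓ).ge, ?_⟩⟩
    · rw [h4]
      have := hV 30
      nlinarith
    · rw [h4]
      have := hV 30
      nlinarith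

end Pool.Agent.SY
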